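import Pool.Agent.Helper95.HW.K2

/-! Block SYS of MP_074879_pr: the first phase and the recursion. -/

open Finset

namespace HW

theorem sq_le_two_pow (n : ℕ) (hn : 4 ≤ n) : n ^ 2 ≤ 2 ^ n := by
  induction n, hn using Nat.le_induction with
  | base => norm_num
  | succ n hn ih =>
    have : (n + 1) ^ 2 ≤ 2 * n ^ 2 := by nlinarith
    rw [pow_succ 2 n]
    omega

/-- SYS0: the first phase -/
theorem inv_zero (e L : ℕ) (hL : 1000 ≤ L) (hLe : L ^ 5 ≤ e) (hLe2 : 2000 * L ^ 5 ≤ e) :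
    ∃ θ : ℝ, Inv (fun k => if k < 2 then 1 / 2 else 0) 2 θ e L ∧
      (e : ℝ) / 20 ≤ Phi (fun k => if k < 2 then 1 / 2 else 0) 2 e := by
  have hL5 : L ≤ L ^ 5 := Nat.le_self_pow (by norm_num) L
  have he1000 : 1000 ≤ e := by omega
  have heL : 2 * L ≤ e := by omega
  have heps : epsL (fun k => if k < 2 then 1 / 2 else 0) 2 = 1 / 2 := by
    simp [epsL, Finset.sum_range_succ]
  have hD : ∀ x : ℕ, Dp (fun k => if k < 2 then 1 / 2 else 0) x = 1 / 2 := by
    intro x
    unfold Dp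
    rw [Finset.sum_eq_single_of_mem 0 (by simp)]
    · simp
    · intro b _ hb
      by_cases hb1 : b = 1
      · subst hb1; simp
      · have : ¬ b < 2 := by omega
        simp [this]
  have hV : ∀ x : ℕ, Vp (fun k => if k < 2 then 1 / 2 else 0) x = 0 := by
    intro x
    unfold Vp
    apply Finset.sum_eq_zero
    intro k hk
    have : ¬ k < 2 := by
      have := (Finset.mem_Ico.1 hk).1
      omega
    simp [this]
  have her : (1000 : ℝ) ≤ (e : ℝ) := by exact_mod_cast he1000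
  have heLr : 2 * (L : ℝ) ≤ (e : ℝ) := by exact_mod_cast heL
  have h2e : (0 : ℝ) < 2 ^ e := by positivity
  have hsq : (e : ℝ) ^ 2 ≤ 2 ^ e := by
    have : e ^ 2 ≤ 2 ^ e := sq_le_two_pow e (by omega)
    exact_mod_cast this
  have hsqrt : (e : ℝ) ≤ Real.sqrt (2 ^ e) := Real.le_sqrt_of_sq_le hsq
  have hs0 : 0 < Real.sqrt (2 ^ e) := Real.sqrt_pos.2 h2e
  have hss : Real.sqrt (2 ^ e) ^ 2 = 2 ^ e := Real.sq_sqrt h2e.le
  refine ⟨(Real.sqrt (2 ^ e))⁻¹, ⟨hL, hLe, ⟨?_, ?_, ?_⟩, ?_, ?_, ?_, ?_, ?_, ?_, ?_, ?_⟩, ?_⟩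
  · intro k
    split_ifs <;> norm_num
  · intro k hk
    have : ¬ k < 2 := by omega
    simp [this]
  · norm_num [Finset.sum_range_succ]
  · have : (1 : ℝ) ≤ 2 ^ e := one_le_pow₀ (by norm_num)
    push_cast
    linarith
  · have : 1 / (e : ℝ) ≤ 1 / 1000 := one_div_le_one_div_of_le (by norm_num) her
    simp only [Nat.zero_lt_succ, if_true]
    linarith
  · have : 1 / (e : ℝ) ≤ 1 / 1000 := one_div_le_one_div_of_le (by norm_num) her
    have h12 : (1 : ℕ) < 2 := by norm_num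
    simp only [h12, if_true]
    linarith
  · intro x _
    rw [hV, hD]
    positivity
  · exact inv_pos.2 hs0
  · rw [inv_pow, hss, inv_mul_cancel₀ h2e.ne']
  · rw [hV, heps]
    positivity
  · rw [heps]
    have : (Real.sqrt (2 ^ e))⁻¹ * (1 / 2 * 2 ^ e) = Real.sqrt (2 ^ e) / 2 := by
      nth_rewrite 2 [← hss]
      field_simp
    rw [this]
    linarith
  · have hcount : hsum (fun k => if k < 2 then 1 / 2 else 0) e (1 / 2 * 2 ^ e) = 2 * e := by
      unfold hsum
      rw [Finset.sum_range_succ, if_neg]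
      · rw [add_zero]
        rw [Finset.sum_congr rfl (g := fun _ => (2 : ℝ))]
        · simp; ring
        · intro a ha
          have ha' : a + 1 ≤ e := by
            have := Finset.mem_range.1 ha
            omega
          have : (2 : ℝ) ^ (a + 1) ≤ 2 ^ e := pow_le_pow_right₀ (by norm_num) ha'
          rw [if_pos, hD]
          · norm_num
          · rw [pow_succ] at this
            linarith
      · intro hc
        linarith
    unfold Phi
    rw [heps, hcount]
    linarith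

/-- the statement of STEP (`Inv.step`) -/
def StepStatement : Prop :=
  ∀ (w : ℕ → ℝ) (K : ℕ) (θ : ℝ) (e L : ℕ) (_ : Inv w K θ e L) (L' : ℕ)
    (_ : L' = L ∨ L' = L + 1)
    (_ : L' ^ 5 ≤ e + L) (G : ℝ) (_ : 2 ≤ G) (_ : 20 * G ≤ ((e + L : ℕ) : ℝ)),
    ∃ θ' : ℝ, Inv (nextW w K θ e L θ') (nextK w K e L) θ' (e + L) L' ∧
      epsL (nextW w K θ e L θ') (nextK w K e L) ≤
        epsL w K * (θ' * (epsL (nextW w K θ e L θ') (nextK w K e L) * 2 ^ (e + L))) ∧
      G ≤ Phi (nextW w K θ e L θ') (nextK w K e L) (e + L) ∧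
      Phi (nextW w K θ e L θ') (nextK w K e L) (e + L) ≤
        max (2 * G) ((1 - 1 / (4000 * (L : ℝ) ^ 3)) * Phi w K e + L + 1)

/-- The recursion for `Φ / f`. -/
theorem ratio_eventually (Ph F : ℕ → ℝ) (L : ℕ → ℕ) (hL : ∀ j, 1000 ≤ L j)
    (hF : ∀ j, 100 * (L j : ℝ) ^ 5 ≤ F j)
    (hnear : ∀ j, |Real.log (F (j + 1)) - Real.log (F j)| ≤ 1 / (100 * (L j : ℝ) ^ 4))
    (hcube : ∀ j, (L j : ℝ) ^ 3 ≤ (L 0 : ℝ) ^ 3 + j)
    (hge : ∀ j, F j ≤ Ph j)
    (hstep : ∀ j, Ph (j + 1) ≤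
      max (2 * F (j + 1)) ((1 - 1 / (4000 * (L j : ℝ) ^ 3)) * Ph j + L j + 1)) :
    ∃ J, ∀ j ≥ J, Ph j ≤ 2 * F j := by
  have hLr : ∀ j, (1000 : ℝ) ≤ (L j : ℝ) := fun j => by exact_mod_cast hL j
  have hFpos : ∀ j, 0 < F j := fun j => by
    have h1 := hLr j
    have : (0 : ℝ) < 100 * (L j : ℝ) ^ 5 := by positivity
    linarith [hF j]
  -- the one step estimate
  have hone : ∀ j, (1 - 1 / (4000 * (L j : ℝ) ^ 3)) * Ph j + L j + 1 ≤
      (1 - 1 / (8000 * (L j : ℝ) ^ 3)) * (Ph j / F j) * F (j + 1) := by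
    intro j
    have h1 := hLr j
    have hFj := hFpos j
    have hFj1 := hFpos (j + 1)
    have hPF : 1 ≤ Ph j / F j := by rw [le_div_iff₀ hFj]; linarith [hge j]
    set x : ℝ := 1 / (100000 * (L j : ℝ) ^ 3) with hx
    have hLpos : (0 : ℝ) < (L j : ℝ) := by linarith
    have hx0 : 0 < x := by positivity
    have hx1 : x ≤ 1 / 1000 := by
      rw [hx]
      apply one_div_le_one_div_of_le (by norm_num)
      have : (1 : ℝ) ≤ (L j : ℝ) ^ 3 := one_le_pow₀ (by linarith)
      linarith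
    have h4000 : 1 / (4000 * (L j : ℝ) ^ 3) = 25 * x := by rw [hx]; field_simp; norm_num
    have h8000 : 1 / (8000 * (L j : ℝ) ^ 3) = 25 / 2 * x := by rw [hx]; field_simp; norm_num
    have hδ : 1 / (100 * (L j : ℝ) ^ 4) ≤ x := by
      rw [hx]
      apply one_div_le_one_div_of_le (by positivity)
      have : (L j : ℝ) ^ 4 = (L j : ℝ) ^ 3 * L j := by ring
      rw [this]
      have h3 : (0 : ℝ) < (L j : ℝ) ^ 3 := by positivity
      nlinarith
    have hratio : (1 - x) * F j ≤ F (j + 1) := by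
      have h2 := (abs_le.1 (hnear j)).1
      have h3 : Real.log (F j) - x ≤ Real.log (F (j + 1)) := by linarith
      have h4 := Real.exp_le_exp.2 h3
      rw [Real.exp_sub, Real.exp_log hFj, Real.exp_log hFj1] at h4
      have h5 : (1 - x) * F j ≤ F j / Real.exp x := by
        rw [div_eq_mul_inv, ← Real.exp_neg, mul_comm (F j)]
        exact mul_le_mul_of_nonneg_right (Real.one_sub_le_exp_neg x) hFj.le
      linarith
    have hL1 : (L j : ℝ) + 1 ≤ 2 * x * F j := by
      have h2 : x * (100 * (L j : ℝ) ^ 5) ≤ x * F j := mul_le_mul_of_nonneg_left (hF j) hx0.le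
      have h3 : x * (100 * (L j : ℝ) ^ 5) = (L j : ℝ) ^ 2 / 1000 := by
        rw [hx]; field_simp; norm_num
      rw [h3] at h2
      nlinarith
    rw [h4000, h8000]
    set R := Ph j / F j with hR
    have hPh : Ph j = R * F j := by rw [hR]; field_simp
    rw [hPh]
    have hR0 : 0 < R := by linarith
    have hcoef : 0 ≤ (1 - 25 / 2 * x) * R := by
      apply mul_nonneg _ hR0.le
      linarith
    calc (1 - 25 * x) * (R * F j) + L j + 1 ≤ (1 - 25 * x) * (R * F j) + 2 * x * (R * F j) := by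
          nlinarith [mul_le_mul_of_nonneg_left hPF (mul_pos hx0 hFj).le]
      _ = (1 - 23 * x) * (R * F j) := by ring
      _ ≤ (1 - 25 / 2 * x) * R * ((1 - x) * F j) := by
          have : 0 ≤ R * F j := by positivity
          have h6 : 1 - 23 * x ≤ (1 - 25 / 2 * x) * (1 - x) := by nlinarith
          nlinarith [mul_le_mul_of_nonneg_right h6 this]
      _ ≤ (1 - 25 / 2 * x) * R * F (j + 1) := mul_le_mul_of_nonneg_left hratio hcoef
  have hc0 : ∀ j, 0 ≤ 1 - 1 / (8000 * (L j : ℝ) ^ 3) := by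
    intro j
    have h1 := hLr j
    have : 1 / (8000 * (L j : ℝ) ^ 3) ≤ 1 / 1 := by
      apply one_div_le_one_div_of_le (by norm_num)
      have : (1 : ℝ) ≤ (L j : ℝ) ^ 3 := one_le_pow₀ (by linarith)
      linarith
    linarith
  have hc1 : ∀ j, 1 - 1 / (8000 * (L j : ℝ) ^ 3) ≤ 1 := by
    intro j
    have h1 := hLr j
    have : 0 ≤ 1 / (8000 * (L j : ℝ) ^ 3) := by positivity
    linarith
  -- once below 2, always below 2
  have hstay : ∀ j, Ph j ≤ 2 * F j → Ph (j + 1) ≤ 2 * F (j + 1) := by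
    intro j hj
    refine (hstep j).trans (max_le le_rfl ?_)
    refine (hone j).trans ?_
    have hR2 : Ph j / F j ≤ 2 := by rw [div_le_iff₀ (hFpos j)]; exact hj
    have hR0 : 0 ≤ Ph j / F j := div_nonneg ((hFpos j).le.trans (hge j)) (hFpos j).le
    have : (1 - 1 / (8000 * (L j : ℝ) ^ 3)) * (Ph j / F j) ≤ 2 := by
      calc (1 - 1 / (8000 * (L j : ℝ) ^ 3)) * (Ph j / F j) ≤ 1 * (Ph j / F j) :=
            mul_le_mul_of_nonneg_right (hc1 j) hR0
        _ ≤ 2 := by linarith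
    exact mul_le_mul_of_nonneg_right this (hFpos (j + 1)).le
  by_cases hex : ∃ J, Ph J ≤ 2 * F J
  · obtain ⟨J, hJ⟩ := hex
    refine ⟨J, fun j hj => ?_⟩
    induction j, hj using Nat.le_induction with
    | base => exact hJ
    | succ j _ ih => exact hstay j ih
  · exfalso
    push Not at hex
    have hdec : ∀ j, Ph (j + 1) / F (j + 1) ≤
        Real.exp (-(1 / (8000 * (L j : ℝ) ^ 3))) * (Ph j / F j) := by
      intro j
      have h1 : Ph (j + 1) ≤ (1 - 1 / (4000 * (L j : ℝ) ^ 3)) * Ph j + L j + 1 := by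
        rcases le_max_iff.1 (hstep j) with h | h
        · exact absurd h (not_le.2 (hex (j + 1)))
        · exact h
      have h2 := h1.trans (hone j)
      rw [div_le_iff₀ (hFpos (j + 1))]
      refine h2.trans (mul_le_mul_of_nonneg_right ?_ (hFpos (j + 1)).le)
      exact mul_le_mul_of_nonneg_right (Real.one_sub_le_exp_neg _)
        (div_nonneg ((hFpos j).le.trans (hge j)) (hFpos j).le)
    have hA : (0 : ℝ) < (L 0 : ℝ) ^ 3 := by
      have := hLr 0
      positivity
    have hbound : ∀ j, Ph j / F j ≤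
        Real.exp (-(1 / (8000 * (L 0 : ℝ) ^ 3) * ∑ i ∈ range j, 1 / ((i : ℝ) + 1))) *
          (Ph 0 / F 0) := by
      intro j
      induction j with
      | zero => simp
      | succ j ih =>
        refine (hdec j).trans ?_
        rw [Finset.sum_range_succ, mul_add, neg_add, Real.exp_add]
        have h1 : Real.exp (-(1 / (8000 * (L j : ℝ) ^ 3))) ≤
            Real.exp (-(1 / (8000 * (L 0 : ℝ) ^ 3) * (1 / ((j : ℝ) + 1)))) := by
          apply Real.exp_le_exp.2
          apply neg_le_neg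
          rw [one_div_mul_one_div]
          have hLj : (0 : ℝ) < (L j : ℝ) ^ 3 := by
            have := hLr j
            positivity
          apply one_div_le_one_div_of_le (by positivity)
          have h2 := hcube j
          have h3 : (1 : ℝ) ≤ (L 0 : ℝ) ^ 3 := one_le_pow₀ (by linarith [hLr 0])
          have h4 : (j : ℝ) ≤ (L 0 : ℝ) ^ 3 * j := le_mul_of_one_le_left (Nat.cast_nonneg j) h3
          nlinarith
        calc Real.exp (-(1 / (8000 * (L j : ℝ) ^ 3))) * (Ph j / F j)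
            ≤ Real.exp (-(1 / (8000 * (L 0 : ℝ) ^ 3) * (1 / ((j : ℝ) + 1)))) *
              (Real.exp (-(1 / (8000 * (L 0 : ℝ) ^ 3) * ∑ i ∈ range j, 1 / ((i : ℝ) + 1))) *
                (Ph 0 / F 0)) := by
              apply mul_le_mul h1 ih
              · exact div_nonneg ((hFpos j).le.trans (hge j)) (hFpos j).le
              · exact (Real.exp_pos _).le
          _ = _ := by ring
    have htend : Filter.Tendsto (fun j : ℕ =>
        Real.exp (-(1 / (8000 * (L 0 : ℝ) ^ 3) * ∑ i ∈ range j, 1 / ((i : ℝ) + 1))) *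
          (Ph 0 / F 0)) Filter.atTop (nhds (0 * (Ph 0 / F 0))) := by
      apply Filter.Tendsto.mul_const
      apply Real.tendsto_exp_neg_atTop_nhds_zero.comp
      exact Filter.Tendsto.const_mul_atTop (by positivity)
        Real.tendsto_sum_range_one_div_nat_succ_atTop
    rw [zero_mul] at htend
    have hev := htend.eventually (gt_mem_nhds (show (0 : ℝ) < 1 by norm_num))
    obtain ⟨j, hj⟩ := hev.exists
    have h1 : 1 ≤ Ph j / F j := by rw [le_div_iff₀ (hFpos j)]; linarith [hge j]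
    linarith [hbound j]

/-- SYS (from exists_scales, inv_zero, Inv.step) -/
theorem exists_sys_of (hstepS : StepStatement) (f : ℝ → ℝ) (hpos : ∀ x > 0, 0 < f x)
    (hunif : ∀ M : ℝ, 1 ≤ M → ∀ δ : ℝ, 0 < δ → ∃ X : ℝ, 0 < X ∧ ∀ x ≥ X, ∀ lam : ℝ, 1 ≤ lam →
      lam ≤ M → |Real.log (f (lam * x)) - Real.log (f x)| ≤ δ)
    (h1 : Filter.Tendsto (fun n : ℕ => f n) Filter.atTop Filter.atTop)
    (h2 : Filter.Tendsto (fun n : ℕ => f n / Real.log n) Filter.atTop (nhds 0)) :
    Nonempty (Sys f) := by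
  classical
  obtain ⟨e, L, hL, hLs, hLt, he, hfge, hfle, hnear, hcube⟩ := exists_scales f hpos hunif h1 h2
  have hLr : ∀ j, (1000 : ℝ) ≤ (L j : ℝ) := fun j => by exact_mod_cast hL j
  have heL : ∀ j, 2000 * L j ^ 5 ≤ e j := by
    intro j
    have h := hfge j
    have h' := hfle j
    have : (2000 : ℝ) * (L j : ℝ) ^ 5 ≤ (e j : ℝ) := by linarith
    exact_mod_cast this
  obtain ⟨θ0, hinv0, hphi0⟩ := inv_zero (e 0) (L 0) (hL 0) (by have := heL 0; omega) (heL 0)
  -- one step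
  have hst : ∀ (j : ℕ) (w : ℕ → ℝ) (K : ℕ) (θ : ℝ), Inv w K θ (e j) (L j) →
      ∃ θ' : ℝ, Inv (nextW w K θ (e j) (L j) θ') (nextK w K (e j) (L j)) θ' (e (j + 1))
          (L (j + 1)) ∧
        epsL (nextW w K θ (e j) (L j) θ') (nextK w K (e j) (L j)) ≤
          epsL w K * (θ' * (epsL (nextW w K θ (e j) (L j) θ') (nextK w K (e j) (L j)) *
            2 ^ (e (j + 1)))) ∧
        f (2 ^ e (j + 1)) ≤
          Phi (nextW w K θ (e j) (L j) θ') (nextK w K (e j) (L j)) (e (j + 1)) ∧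
        Phi (nextW w K θ (e j) (L j) θ') (nextK w K (e j) (L j)) (e (j + 1)) ≤
          max (2 * f (2 ^ e (j + 1)))
            ((1 - 1 / (4000 * (L j : ℝ) ^ 3)) * Phi w K (e j) + L j + 1) := by
    intro j w K θ h
    have hG : 2 ≤ f (2 ^ e (j + 1)) := by
      have h3 := hfge (j + 1)
      have h4 : (1 : ℝ) ≤ (L (j + 1) : ℝ) ^ 5 := one_le_pow₀ (by linarith [hLr (j + 1)])
      linarith
    have hG' := hfle (j + 1)
    have h5 := heL (j + 1)
    rw [he j] at hG' h5 hG ⊢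
    exact hstepS w K θ (e j) (L j) h (L (j + 1)) (hLs j) (by omega) _ hG hG'
  -- the recursion
  let St : ℕ → Type := fun j => {p : (ℕ → ℝ) × ℕ × ℝ // Inv p.1 p.2.1 p.2.2 (e j) (L j)}
  let nxt : ∀ j, St j → St (j + 1) := fun j s =>
    ⟨(nextW s.1.1 s.1.2.1 s.1.2.2 (e j) (L j) (hst j s.1.1 s.1.2.1 s.1.2.2 s.2).choose,
      nextK s.1.1 s.1.2.1 (e j) (L j), (hst j s.1.1 s.1.2.1 s.1.2.2 s.2).choose),
      (hst j s.1.1 s.1.2.1 s.1.2.2 s.2).choose_spec.1⟩
  let st : ∀ j, St j := fun j => Nat.rec ⟨(fun k => if k < 2 then 1 / 2 else 0, 2, θ0), hinv0⟩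
    (fun j s => nxt j s) j
  have hst1 : ∀ j, st (j + 1) = nxt j (st j) := fun j => rfl
  let W : ℕ → ℕ → ℝ := fun j => (st j).1.1
  let K : ℕ → ℕ := fun j => (st j).1.2.1
  let θ : ℕ → ℝ := fun j => (st j).1.2.2
  have hspec : ∀ j, _ := fun j => (hst j (st j).1.1 (st j).1.2.1 (st j).1.2.2 (st j).2).choose_spec
  have hKs : ∀ j, K (j + 1) = nextK (W j) (K j) (e j) (L j) := fun j => rfl
  have hWs : ∀ j, W (j + 1) = nextW (W j) (K j) (θ j) (e j) (L j) (θ (j + 1)) := fun j => rfl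
  have hrho : ∀ j, epsL (W (j + 1)) (K (j + 1)) ≤
    epsL (W j) (K j) * (θ (j + 1) * (epsL (W (j + 1)) (K (j + 1)) * 2 ^ (e (j + 1)))) :=
    fun j => (hspec j).2.1
  have hge1 : ∀ j, f (2 ^ e (j + 1)) ≤ Phi (W (j + 1)) (K (j + 1)) (e (j + 1)) :=
    fun j => (hspec j).2.2.1
  have hle1 : ∀ j, Phi (W (j + 1)) (K (j + 1)) (e (j + 1)) ≤
      max (2 * f (2 ^ e (j + 1)))
        ((1 - 1 / (4000 * (L j : ℝ) ^ 3)) * Phi (W j) (K j) (e j) + L j + 1) :=
    fun j => (hspec j).2.2.2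
  have hge : ∀ j, f (2 ^ (e j)) ≤ Phi (W j) (K j) (e j) := by
    intro j
    cases j with
    | zero =>
      have h3 := hfle 0
      have h4 : (e 0 : ℝ) / 20 ≤ Phi (W 0) (K 0) (e 0) := hphi0
      linarith
    | succ j => exact hge1 j
  refine ⟨{ e := e, L := L, W := W, K := K, θ := θ, L_step := hLs, L_tend := hLt, e_step := he,
            inv := fun j => (st j).2, W_zero := fun k => rfl, K_step := hKs, W_step := hWs,
            rho := hrho, f_ge := hfge, f_le := hfle, f_near := hnear, Phi_ge := hge,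
            Phi_le := ?_ }⟩
  refine ratio_eventually (fun j => Phi (W j) (K j) (e j)) (fun j => f (2 ^ e j)) L hL hfge ?_
    hcube hge hle1
  intro j
  refine hnear j _ ?_ ?_
  · exact pow_le_pow_right₀ (by norm_num) (by rw [he j]; omega)
  · have : (0 : ℝ) < 2 ^ e (j + 1) := by positivity
    linarith

end HW
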