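import Pool.Agent.Helper49.HW.SDefs
import Pool.Agent.Helper49.HW.SysDefs
import Pool.Agent.Helper95.HW.SYS
import Pool.Agent.Helper14.HW.CA
import Pool.Agent.Helper14.HW.F1
import Pool.Agent.Helper83.KU.Karamata

/-! Block F3 of MP_074879_pr: conclusion from the main estimate. -/

open Finset Filter Topology

namespace HW

/-- the path with `n + 1` vertices, as a forest with one tree -/
def pathF : ℕ → Forest
  | 0 => Forest.cons Forest.nil Forest.nil
  | n + 1 => Forest.cons (pathF n) Forest.nil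

theorem pathF_mem (n : ℕ) : pathF n ∈ trees (n + 1) := by
  rw [mem_trees]
  induction n with
  | zero => exact ⟨rfl, rfl⟩
  | succ n ih =>
    refine ⟨rfl, ?_⟩
    simp only [pathF, Forest.vert, ih.2]

theorem pathF_wt (μ : ℕ → ℝ) (h0 : 0 < μ 0) (h1 : 0 < μ 1) (n : ℕ) : 0 < (pathF n).wt μ := by
  induction n with
  | zero => simpa [pathF, Forest.wt, Forest.len] using h0
  | succ n ih =>
    have hl : (pathF n).len = 1 := ((mem_trees _ _).1 (pathF_mem n)).1
    simp only [pathF, Forest.wt, hl, mul_one]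
    exact mul_pos h1 ih

theorem wt_nonneg (μ : ℕ → ℝ) (hμ : ∀ k, 0 ≤ μ k) (F : Forest) : 0 ≤ F.wt μ := by
  induction F with
  | nil => simp [Forest.wt]
  | cons c s ihc ihs => exact mul_nonneg (mul_nonneg (hμ _) ihc) ihs

theorem TS_pos (μ : ℕ → ℝ) (hμ : ∀ k, 0 ≤ μ k) (h0 : 0 < μ 0) (h1 : 0 < μ 1) (n : ℕ)
    (hn : 1 ≤ n) : 0 < TS n μ (fun _ => True) := by
  obtain ⟨m, rfl⟩ : ∃ m, n = m + 1 := ⟨n - 1, by omega⟩
  unfold TS
  refine Finset.sum_pos' (fun T _ => ?_) ⟨pathF m, pathF_mem m, ?_⟩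
  · simp only [if_true]
    exact wt_nonneg μ hμ T
  · simp only [if_true]
    exact pathF_wt μ h0 h1 m

theorem TS_compl (μ : ℕ → ℝ) (n : ℕ) (A : Forest → Prop) :
    TS n μ A + TS n μ (fun T => ¬ A T) = TS n μ (fun _ => True) := by
  classical
  unfold TS
  rw [← Finset.sum_add_distrib]
  apply Finset.sum_congr rfl
  intro T _
  by_cases h : A T <;> simp [h]

theorem TS_mono' (n : ℕ) (w : ℕ → ℝ) (hw : ∀ k, 0 ≤ w k) (A B : Forest → Prop)
    (h : ∀ T, T.len = 1 → T.vert = n → A T → B T) : TS n w A ≤ TS n w B := by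
  classical
  unfold TS
  apply Finset.sum_le_sum
  intro T hT
  rw [mem_trees] at hT
  by_cases hA : A T
  · have := h T hT.1 hT.2 hA
    simp [hA, this]
  · by_cases hB : B T
    · simp [hA, hB, wt_nonneg w hw T]
    · simp [hA, hB]

/-- a forest with one tree is `cons c nil` -/
theorem eq_cons_of_len (T : Forest) (h : T.len = 1) : ∃ c, T = Forest.cons c Forest.nil := by
  cases T with
  | nil => simp [Forest.len] at h
  | cons c s =>
    cases s with
    | nil => exact ⟨c, rfl⟩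
    | cons a b => simp [Forest.len] at h

/-- the conditional probability as a quotient of sums over trees -/
theorem condProb_ge (μ : ℕ → ℝ) (hμ : ∀ k, 0 ≤ μ k) (h0 : 0 < μ 0) (h1 : 0 < μ 1) (n : ℕ)
    (hn : 1 ≤ n) (A : PTree → Prop) (B : Forest → Prop) (δ : ℝ)
    (hB : ∀ c : PTree, treeSize c = n → B (Forest.cons c Forest.nil) → A c)
    (hδ : TS n μ (fun T => ¬ B T) ≤ δ * TS n μ (fun _ => True)) :
    1 - δ ≤ condProb μ n A := by
  classical
  have hpos := TS_pos μ hμ h0 h1 n hn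
  have e1 : (∑' T : PTree, if treeSize T = n ∧ A T then treeProb μ T else 0) =
      TS n μ (fun T => ∃ c, T = Forest.cons c Forest.nil ∧ A c) := tsum_tree_eq_TS μ n A
  unfold condProb
  rw [le_div_iff₀ (by rw [sizeProb_eq_TS]; exact hpos), sizeProb_eq_TS]
  have h2 := TS_compl μ n B
  have h3 : TS n μ B ≤ TS n μ (fun T => ∃ c, T = Forest.cons c Forest.nil ∧ A c) := by
    apply TS_mono' n μ hμ
    intro T hl hv hBT
    obtain ⟨c, rfl⟩ := eq_cons_of_len T hl
    refine ⟨c, rfl, hB c ?_ hBT⟩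
    simp only [Forest.vert] at hv
    unfold treeSize
    omega
  calc (1 - δ) * TS n μ (fun _ => True) ≤
      TS n μ (fun T => ∃ c, T = Forest.cons c Forest.nil ∧ A c) := by linarith
    _ = _ := by rw [← e1]

/-- the conclusion of F2 (`exists_mu`) -/
def Sys.MuStatement {f : ℝ → ℝ} (S : Sys f) : Prop :=
    ∃ μ : ℕ → ℝ, (∀ k, 0 ≤ μ k) ∧ HasSum μ 1 ∧ 0 < μ 0 ∧ 0 < μ 1 ∧
      ∃ c s : ℝ, 0 < c ∧ ∀ n : ℕ, ∀ J ≥ n, ∀ A : Forest → Prop,
        TS n μ A = c ^ n * Real.exp s * TS n (S.wA J) A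

/-- the statement of N5 (`Sys.main`) -/
def Sys.MainStatement {f : ℝ → ℝ} (S : Sys f) : Prop :=
  ∀ (j n J : ℕ) (_ : 1 ≤ j) (_ : 13 * 2 ^ (S.e j) ≤ 10 * n)
    (_ : 10 * n ≤ 13 * 2 ^ (S.e (j + 1))) (_ : j + 1 ≤ J)
    (_ : ∀ i, j - 1 ≤ i → Phi (S.W i) (S.K i) (S.e i) ≤ 2 * f (2 ^ (S.e i)))
    (_ : ∀ x > 0, 0 < f x),
    TS n (S.wA J) (fun T => ¬ ((n : ℝ) * f n / 1000 ≤ hei T * wid T ∧
        (hei T * wid T : ℝ) ≤ 1000 * n * f n)) ≤
      100 / S.L (j - 1) * TS n (S.wA J) (fun _ => True)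

/-- F3: conclusion from the main estimate -/
theorem final_of_sys_of (f : ℝ → ℝ) (hpos : ∀ x > 0, 0 < f x) (S : Sys f)
    (hmu : S.MuStatement) (hmainS : S.MainStatement) :
    ∃ μ : ℕ → ℝ, (∀ k, 0 ≤ μ k) ∧ HasSum μ 1 ∧ (∀ n, 1 ≤ n → 0 < sizeProb μ n) ∧
      ∀ δ > 0, ∃ C > 0, ∀ n : ℕ, 2 ≤ n →
        1 - δ ≤ condProb μ n (fun T => (n * f n) / C ≤ treeHeight T * treeWidth T ∧
          (treeHeight T * treeWidth T : ℝ) ≤ C * (n * f n)) := by
  obtain ⟨μ, hμ, hsum, h0, h1, c, s, hc, hTS⟩ := hmu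
  refine ⟨μ, hμ, hsum, fun n hn => ?_, ?_⟩
  · rw [sizeProb_eq_TS]
    exact TS_pos μ hμ h0 h1 n hn
  intro δ hδ
  -- the scales grow
  have hL1 : ∀ j, 1000 ≤ S.L j := fun j => (S.inv j).L_ge
  have hemono : ∀ j, S.e j + 1 ≤ S.e (j + 1) := by
    intro j
    rw [S.e_step j]
    have := hL1 j
    omega
  have hemono' : Monotone S.e := monotone_nat_of_le_succ fun j => by
    have := hemono j
    omega
  have hege : ∀ j, j ≤ S.e j := by
    intro j
    induction j with
    | zero => exact Nat.zero_le _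
    | succ j ih =>
      have := hemono j
      omega
  obtain ⟨J1, hJ1⟩ := S.Phi_le
  -- choice of j0
  obtain ⟨J2, hJ2⟩ := (Filter.tendsto_atTop.1 S.L_tend ⌈100 / δ⌉₊).exists_forall_of_atTop
  set j0 : ℕ := max J1 J2 + 1 with hj0
  set N0 : ℕ := 13 * 2 ^ (S.e j0) with hN0
  -- the constant
  set C0 : ℝ := ∑ n ∈ Ico 1 N0, ((n : ℝ) * f n + n / f n) with hC0
  have hterm : ∀ n : ℕ, 1 ≤ n → 0 < (n : ℝ) * f n ∧ 0 < (n : ℝ) / f n := by
    intro n hn
    have hn' : (0 : ℝ) < n := by exact_mod_cast hn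
    have := hpos n hn'
    exact ⟨mul_pos hn' this, div_pos hn' this⟩
  have hC0nonneg : 0 ≤ C0 := by
    apply Finset.sum_nonneg
    intro n hn
    have := hterm n (Finset.mem_Ico.1 hn).1
    linarith [this.1, this.2]
  refine ⟨1000 + C0, by linarith, ?_⟩
  intro n hn
  have hn1 : 1 ≤ n := by omega
  have hnr : (0 : ℝ) < n := by exact_mod_cast hn1
  have hfn : 0 < f n := hpos n hnr
  have hnf : 0 < (n : ℝ) * f n := mul_pos hnr hfn
  by_cases hsmall : n < N0
  · -- small n: all trees are good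
    refine condProb_ge μ hμ h0 h1 n hn1 _ (fun _ => True) δ ?_ ?_
    · intro T hT _
      obtain ⟨hb1, hb2⟩ := tree_bounds T (by omega)
      rw [hT] at hb2
      have hb1' : (1 : ℝ) ≤ (treeHeight T : ℝ) * treeWidth T := by exact_mod_cast hb1
      have hb2' : (treeHeight T : ℝ) * treeWidth T ≤ (n : ℝ) ^ 2 := by exact_mod_cast hb2
      have hle : (n : ℝ) * f n + n / f n ≤ C0 := by
        rw [hC0]
        exact Finset.single_le_sum (f := fun n : ℕ => (n : ℝ) * f n + n / f n)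
          (fun i hi => by
            have := hterm i (Finset.mem_Ico.1 hi).1
            linarith [this.1, this.2]) (Finset.mem_Ico.2 ⟨hn1, hsmall⟩)
      have hq := (hterm n hn1).2
      constructor
      · rw [div_le_iff₀ (by linarith)]
        nlinarith
      · have h3 : (n : ℝ) ^ 2 = n / f n * (n * f n) := by
          field_simp
        calc (treeHeight T : ℝ) * treeWidth T ≤ (n : ℝ) ^ 2 := hb2'
          _ = n / f n * (n * f n) := h3
          _ ≤ (1000 + C0) * (n * f n) := by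
            apply mul_le_mul_of_nonneg_right _ hnf.le
            linarith
    · have : TS n μ (fun T => ¬ True) = 0 := by
        unfold TS
        apply Finset.sum_eq_zero
        intro T _
        simp
      rw [this]
      exact mul_nonneg hδ.le (TS_pos μ hμ h0 h1 n hn1).le
  · -- large n
    push Not at hsmall
    have hex : ∃ j, 10 * n < 13 * 2 ^ (S.e (j + 1)) := by
      refine ⟨n, ?_⟩
      have h2 : n < 2 ^ n := Nat.lt_two_pow_self
      have h3 : 2 ^ n ≤ 2 ^ (S.e (n + 1)) :=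
        Nat.pow_le_pow_right (by norm_num) (by have := hege (n + 1); omega)
      omega
    classical
    set j := Nat.find hex with hj
    have hjlt : 10 * n < 13 * 2 ^ (S.e (j + 1)) := Nat.find_spec hex
    have hjge : j0 ≤ j := by
      by_contra hcon
      push Not at hcon
      have h4 : S.e (j + 1) ≤ S.e j0 := hemono' (by omega)
      have h5 : 2 ^ (S.e (j + 1)) ≤ 2 ^ (S.e j0) := Nat.pow_le_pow_right (by norm_num) h4
      omega
    have hj1 : 1 ≤ j := by omega
    have hjle : 13 * 2 ^ (S.e j) ≤ 10 * n := by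
      have := Nat.find_min hex (show j - 1 < j by omega)
      rw [show j - 1 + 1 = j by omega] at this
      omega
    have hmain := hmainS j n (max (j + 1) n) hj1 hjle hjlt.le (le_max_left _ _)
      (fun i hi => hJ1 i (by omega)) hpos
    have hδL : 100 / (S.L (j - 1) : ℝ) ≤ δ := by
      have h6 : ⌈100 / δ⌉₊ ≤ S.L (j - 1) := hJ2 (j - 1) (by omega)
      have h7 : 100 / δ ≤ (S.L (j - 1) : ℝ) := (Nat.le_ceil _).trans (by exact_mod_cast h6)
      have h8 : (0 : ℝ) < S.L (j - 1) := by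
        have := hL1 (j - 1)
        have h9 : (1000 : ℝ) ≤ S.L (j - 1) := by exact_mod_cast this
        linarith
      rw [div_le_iff₀ hδ] at h7
      rw [div_le_iff₀ h8]
      linarith
    set B : Forest → Prop := fun T => ((n : ℝ) * f n / 1000 ≤ hei T * wid T ∧
        (hei T * wid T : ℝ) ≤ 1000 * n * f n) with hB
    refine condProb_ge μ hμ h0 h1 n hn1 _ B δ ?_ ?_
    · intro T hT hBT
      rw [hB] at hBT
      simp only [wid_cons, hei_cons] at hBT
      obtain ⟨hb1, hb2⟩ := hBT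
      constructor
      · refine le_trans ?_ hb1
        apply div_le_div_of_nonneg_left hnf.le (by norm_num)
        linarith
      · refine hb2.trans ?_
        nlinarith
    · have e1 := hTS n (max (j + 1) n) (le_max_right _ _) (fun T => ¬ B T)
      have e2 := hTS n (max (j + 1) n) (le_max_right _ _) (fun _ => True)
      have hscale : 0 ≤ c ^ n * Real.exp s := by positivity
      have hTSpos : 0 ≤ TS n μ (fun _ => True) := (TS_pos μ hμ h0 h1 n hn1).le
      calc TS n μ (fun T => ¬ B T) = c ^ n * Real.exp s *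
            TS n (S.wA (max (j + 1) n)) (fun T => ¬ B T) := e1
        _ ≤ c ^ n * Real.exp s * (100 / S.L (j - 1) *
            TS n (S.wA (max (j + 1) n)) (fun _ => True)) :=
            mul_le_mul_of_nonneg_left hmain hscale
        _ = 100 / S.L (j - 1) * TS n μ (fun _ => True) := by rw [e2]; ring
        _ ≤ δ * TS n μ (fun _ => True) := mul_le_mul_of_nonneg_right hδL hTSpos

/-- FINAL, from the statements of STEP, F2, N5 -/
theorem height_width_of (hstep : StepStatement)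
    (hmu : ∀ (f : ℝ → ℝ) (S : Sys f), S.MuStatement)
    (hmainS : ∀ (f : ℝ → ℝ) (S : Sys f), S.MainStatement) (f : ℝ → ℝ) (hpos : ∀ x > 0, 0 < f x)
    (hmeas : Measurable f)
    (hslow : ∀ lam > 0, Tendsto (fun x => f (lam * x) / f x) atTop (𝓝 1))
    (hinf : Tendsto (fun n : ℕ => f n) atTop atTop)
    (hlog : Tendsto (fun n : ℕ => f n / Real.log n) atTop (𝓝 0)) :
    ∃ μ : ℕ → ℝ, (∀ k, 0 ≤ μ k) ∧ HasSum μ 1 ∧ (∀ n, 1 ≤ n → 0 < sizeProb μ n) ∧
      ∀ δ > 0, ∃ C > 0, ∀ n : ℕ, 2 ≤ n →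
        1 - δ ≤ condProb μ n (fun T => (n * f n) / C ≤ treeHeight T * treeWidth T ∧
          (treeHeight T * treeWidth T : ℝ) ≤ C * (n * f n)) := by
  obtain ⟨S⟩ := exists_sys_of hstep f hpos (by
    intro M _ δ hδ
    obtain ⟨X, hX, h⟩ := KU.karamata hmeas (fun x hx => hpos x hx) (fun l hl => hslow l hl) M hδ
    exact ⟨X, hX, fun x hx lam h1 h2 => h x hx lam ⟨h1, h2⟩⟩) hinf hlog
  exact final_of_sys_of f hpos S (hmu f S) (hmainS f S)

end HW
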