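import Pool.Agent.Helper49.HW.Defs2

/-! Block K2 of MP_074879_pr: choice of the scales. -/

open Finset

namespace HW

/-- the condition for the pair `(e, L)` -/
def ScaleOK (f : ℝ → ℝ) (e L : ℕ) : Prop :=
  100 * (L : ℝ) ^ 5 ≤ f (2 ^ e) ∧ 20 * f (2 ^ e) ≤ e ∧
    ∀ x : ℝ, 2 ^ e ≤ x → x ≤ 16 * 2 ^ (e + L) →
      |Real.log (f x) - Real.log (f (2 ^ e))| ≤ 1 / (100 * (L : ℝ) ^ 4)

theorem exists_threshold (f : ℝ → ℝ)
    (hunif : ∀ M : ℝ, 1 ≤ M → ∀ δ : ℝ, 0 < δ → ∃ X : ℝ, 0 < X ∧ ∀ x ≥ X, ∀ lam : ℝ, 1 ≤ lam →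
      lam ≤ M → |Real.log (f (lam * x)) - Real.log (f x)| ≤ δ)
    (h1 : Filter.Tendsto (fun n : ℕ => f n) Filter.atTop Filter.atTop)
    (h2 : Filter.Tendsto (fun n : ℕ => f n / Real.log n) Filter.atTop (nhds 0))
    (L : ℕ) (hL : 1 ≤ L) : ∃ T : ℕ, ∀ e, T ≤ e → ScaleOK f e L := by
  have hpow : Filter.Tendsto (fun e : ℕ => (2 : ℕ) ^ e) Filter.atTop Filter.atTop :=
    tendsto_pow_atTop_atTop_of_one_lt (by norm_num)
  have hLr : (1 : ℝ) ≤ (L : ℝ) := by exact_mod_cast hL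
  -- (a)
  have ha : ∀ᶠ e : ℕ in Filter.atTop, 100 * (L : ℝ) ^ 5 ≤ f (2 ^ e) := by
    have := (h1.comp hpow).eventually (Filter.eventually_ge_atTop (100 * (L : ℝ) ^ 5))
    filter_upwards [this] with e he
    simpa using he
  -- (b)
  have hb : ∀ᶠ e : ℕ in Filter.atTop, 20 * f (2 ^ e) ≤ e := by
    have h := (h2.comp hpow).eventually (Filter.Tendsto.eventually_le_const
      (show (0 : ℝ) < 1 / 20 by norm_num) Filter.tendsto_id)
    filter_upwards [h, Filter.eventually_ge_atTop 1] with e he he1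
    have he' : f (2 ^ e) / Real.log ((2 : ℝ) ^ e) ≤ 1 / 20 := by simpa using he
    have her : (1 : ℝ) ≤ (e : ℝ) := by exact_mod_cast he1
    have hlog : Real.log ((2 : ℝ) ^ e) = e * Real.log 2 := by
      rw [Real.log_pow]
    have hlog2 : 0 < Real.log 2 := Real.log_pos (by norm_num)
    have hlog2' : Real.log 2 ≤ 1 := by
      have := Real.log_two_lt_d9
      linarith
    have hpos : 0 < Real.log ((2 : ℝ) ^ e) := by rw [hlog]; positivity
    rw [div_le_iff₀ hpos, hlog] at he'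
    nlinarith
  -- (c)
  have hc : ∀ᶠ e : ℕ in Filter.atTop, ∀ x : ℝ, 2 ^ e ≤ x → x ≤ 16 * 2 ^ (e + L) →
      |Real.log (f x) - Real.log (f (2 ^ e))| ≤ 1 / (100 * (L : ℝ) ^ 4) := by
    obtain ⟨X, hX0, hX⟩ := hunif (16 * 2 ^ L) (by
      have : (1 : ℝ) ≤ 2 ^ L := one_le_pow₀ (by norm_num)
      linarith) (1 / (100 * (L : ℝ) ^ 4)) (by positivity)
    have hpowr : Filter.Tendsto (fun e : ℕ => (2 : ℝ) ^ e) Filter.atTop Filter.atTop :=
      tendsto_pow_atTop_atTop_of_one_lt (by norm_num)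
    filter_upwards [hpowr.eventually (Filter.eventually_ge_atTop X)] with e he x hx1 hx2
    have h2e : (0 : ℝ) < 2 ^ e := by positivity
    have := hX (2 ^ e) he (x / 2 ^ e) (by rw [le_div_iff₀ h2e]; linarith) (by
      rw [div_le_iff₀ h2e]
      calc x ≤ 16 * 2 ^ (e + L) := hx2
        _ = 16 * 2 ^ L * 2 ^ e := by rw [pow_add]; ring)
    rwa [div_mul_cancel₀ _ h2e.ne'] at this
  obtain ⟨T, hT⟩ := Filter.eventually_atTop.1 (ha.and (hb.and hc))
  exact ⟨T, fun e he => ⟨(hT e he).1, (hT e he).2.1, (hT e he).2.2⟩⟩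

/-- K2 (uses Karamata's uniform convergence theorem): choice of the scales -/
theorem exists_scales (f : ℝ → ℝ) (hpos : ∀ x > 0, 0 < f x)
    (hunif : ∀ M : ℝ, 1 ≤ M → ∀ δ : ℝ, 0 < δ → ∃ X : ℝ, 0 < X ∧ ∀ x ≥ X, ∀ lam : ℝ, 1 ≤ lam →
      lam ≤ M → |Real.log (f (lam * x)) - Real.log (f x)| ≤ δ)
    (h1 : Filter.Tendsto (fun n : ℕ => f n) Filter.atTop Filter.atTop)
    (h2 : Filter.Tendsto (fun n : ℕ => f n / Real.log n) Filter.atTop (nhds 0)) :
    ∃ e L : ℕ → ℕ, (∀ j, 1000 ≤ L j) ∧ (∀ j, L (j + 1) = L j ∨ L (j + 1) = L j + 1) ∧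
      Filter.Tendsto L Filter.atTop Filter.atTop ∧ (∀ j, e (j + 1) = e j + L j) ∧
      (∀ j, 100 * (L j : ℝ) ^ 5 ≤ f (2 ^ (e j))) ∧
      (∀ j, 20 * f (2 ^ (e j)) ≤ e j) ∧
      (∀ j, ∀ x : ℝ, 2 ^ (e j) ≤ x → x ≤ 16 * 2 ^ (e (j + 1)) →
        |Real.log (f x) - Real.log (f (2 ^ (e j)))| ≤ 1 / (100 * (L j : ℝ) ^ 4)) ∧
      (∀ j, (L j : ℝ) ^ 3 ≤ (L 0 : ℝ) ^ 3 + j) := by
  classical
  have hth : ∀ L : ℕ, ∃ T : ℕ, 1 ≤ L → ∀ e, T ≤ e → ScaleOK f e L := by
    intro L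
    by_cases hL : 1 ≤ L
    · obtain ⟨T, hT⟩ := exists_threshold f hunif h1 h2 L hL
      exact ⟨T, fun _ => hT⟩
    · exact ⟨0, fun h => absurd h hL⟩
  choose T hT using hth
  -- the recursion on the pair (e, L)
  let step : ℕ → ℕ × ℕ → ℕ × ℕ := fun j p =>
    (p.1 + p.2, if T (p.2 + 1) ≤ p.1 + p.2 ∧ (p.2 + 1) ^ 3 ≤ 1000 ^ 3 + (j + 1) then p.2 + 1
      else p.2)
  let s : ℕ → ℕ × ℕ := fun j => Nat.rec (T 1000, 1000) step j
  have s0 : s 0 = (T 1000, 1000) := rfl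
  have sS : ∀ j, s (j + 1) = step j (s j) := fun j => rfl
  have he : ∀ j, (s (j + 1)).1 = (s j).1 + (s j).2 := fun j => rfl
  have hLs : ∀ j, (s (j + 1)).2 = if T ((s j).2 + 1) ≤ (s j).1 + (s j).2 ∧
      ((s j).2 + 1) ^ 3 ≤ 1000 ^ 3 + (j + 1) then (s j).2 + 1 else (s j).2 := fun j => rfl
  have hL2 : ∀ j, (s (j + 1)).2 = (s j).2 ∨ (s (j + 1)).2 = (s j).2 + 1 := by
    intro j
    rw [hLs j]
    split_ifs
    · exact Or.inr rfl
    · exact Or.inl rfl
  have hmono : Monotone (fun j => (s j).2) := by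
    apply monotone_nat_of_le_succ
    intro j
    rcases hL2 j with h | h <;> omega
  have hge : ∀ j, 1000 ≤ (s j).2 := by
    intro j
    have := hmono (Nat.zero_le j)
    simpa [s0] using this
  have hTs : ∀ j, T (s j).2 ≤ (s j).1 := by
    intro j
    induction j with
    | zero => simp [s0]
    | succ j ih =>
      rw [hLs j, he j]
      split_ifs with h
      · exact h.1
      · omega
  have hcube : ∀ j, (s j).2 ^ 3 ≤ 1000 ^ 3 + j := by
    intro j
    induction j with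
    | zero => simp [s0]
    | succ j ih =>
      rw [hLs j]
      split_ifs with h
      · exact h.2
      · omega
  have hOK : ∀ j, ScaleOK f (s j).1 (s j).2 := fun j =>
    hT (s j).2 (by have := hge j; omega) (s j).1 (hTs j)
  have hegrow : ∀ j, j ≤ (s j).1 := by
    intro j
    induction j with
    | zero => exact Nat.zero_le _
    | succ j ih =>
      rw [he j]
      have := hge j
      omega
  refine ⟨fun j => (s j).1, fun j => (s j).2, hge, hL2, ?_, he, fun j => (hOK j).1,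
    fun j => (hOK j).2.1, ?_, ?_⟩
  · -- L tends to infinity
    refine Filter.tendsto_atTop_atTop_of_monotone hmono ?_
    intro b
    induction b with
    | zero => exact ⟨0, Nat.zero_le _⟩
    | succ b ih =>
      obtain ⟨a, ha⟩ := ih
      by_contra hcon
      push Not at hcon
      have hconst : ∀ j, a ≤ j → (s j).2 = b := by
        intro j hj
        have h1 := hmono hj
        have h2 := hcon j
        simp only [] at h1 h2 ha
        omega
      let N := max a (max (T (b + 1)) ((b + 1) ^ 3))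
      have hN : a ≤ N := le_max_left _ _
      have hN1 : T (b + 1) ≤ N := le_trans (le_max_left _ _) (le_max_right _ _)
      have hN2 : (b + 1) ^ 3 ≤ N := le_trans (le_max_right _ _) (le_max_right _ _)
      have h3 := hLs N
      rw [hconst N hN, hconst (N + 1) (by omega)] at h3
      have h4 := hegrow N
      rw [if_pos ⟨by omega, by omega⟩] at h3
      omega
  · intro j x hx1 hx2
    refine (hOK j).2.2 x hx1 ?_
    simp only [he j] at hx2
    exact hx2
  · intro j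
    simp only [s0]
    have := hcube j
    exact_mod_cast this

end HW
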